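import Pool.Agent.W973.IP.Defs

/-!
# Project IP, part DC: dimension counting
-/

set_option autoImplicit false

namespace Pool.Agent.W19.IP

open Pool.Agent.W973.IP MvPolynomial

/-- exponent vectors -/
noncomputable def fs {κ : Type} [Fintype κ] {D : ℕ} (α : κ → Fin (D + 1)) : κ →₀ ℕ :=
  Finsupp.equivFunOnFinite.symm (fun x => (α x : ℕ))

theorem fs_apply {κ : Type} [Fintype κ] {D : ℕ} (α : κ → Fin (D + 1)) (x : κ) :
    fs α x = (α x : ℕ) := rfl

theorem fs_inj {κ : Type} [Fintype κ] {D : ℕ} :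
    Function.Injective (fs : (κ → Fin (D + 1)) → (κ →₀ ℕ)) := by
  intro α β h
  funext x
  have h1 : fs α x = fs β x := by rw [h]
  rw [fs_apply, fs_apply] at h1
  exact Fin.ext h1

theorem count (m q d D : ℕ) (hmq : m < q) (hd : 1 ≤ d) (hD : (d * q) ^ m ≤ D) :
    (d * (q * D) + 1) ^ m < (D + 1) ^ q := by
  have hdq : 1 ≤ d * q := Nat.mul_pos hd (by omega)
  calc (d * (q * D) + 1) ^ m ≤ (d * q * (D + 1)) ^ m := by
        refine Nat.pow_le_pow_left ?_ m
        nlinarith
    _ = (d * q) ^ m * (D + 1) ^ m := mul_pow _ _ _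
    _ ≤ D * (D + 1) ^ m := Nat.mul_le_mul_right _ hD
    _ < (D + 1) * (D + 1) ^ m := Nat.mul_lt_mul_of_pos_right (Nat.lt_succ_self D) (by positivity)
    _ = (D + 1) ^ (m + 1) := by rw [pow_succ, mul_comm]
    _ ≤ (D + 1) ^ q := Nat.pow_le_pow_right (Nat.succ_pos D) hmq

theorem rel (k : Type) [Field k] {ι A : Type} [Fintype ι] [Fintype A] (N : ℕ)
    (T : A → MvPolynomial ι k) (hT : ∀ α i, (T α).degreeOf i ≤ N)
    (hcard : (N + 1) ^ (Fintype.card ι) < Fintype.card A) :
    ∃ c : A → k, c ≠ 0 ∧ ∑ α, C (c α) * T α = 0 := by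
  classical
  let Φ : (A → k) →ₗ[k] ((ι → Fin (N + 1)) → k) :=
    LinearMap.pi fun e => ∑ α, (coeff (fs e) (T α)) • (LinearMap.proj α : (A → k) →ₗ[k] k)
  have hΦ : ∀ c e, Φ c e = ∑ α, coeff (fs e) (T α) * c α := by
    intro c e
    show (∑ α, (coeff (fs e) (T α)) • (LinearMap.proj α : (A → k) →ₗ[k] k)) c = _
    rw [LinearMap.sum_apply]
    rfl
  have hker : LinearMap.ker Φ ≠ ⊥ := by
    apply LinearMap.ker_ne_bot_of_finrank_lt
    rw [Module.finrank_fintype_fun_eq_card, Module.finrank_fintype_fun_eq_card]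
    simpa using hcard
  obtain ⟨c, hc, hc0⟩ := Submodule.exists_mem_ne_zero_of_ne_bot hker
  refine ⟨c, hc0, ?_⟩
  ext e
  rw [coeff_sum, coeff_zero]
  by_cases he : ∀ i, e i < N + 1
  · have h1 : fs (fun i => (⟨e i, he i⟩ : Fin (N + 1))) = e := by
      ext i
      rw [fs_apply]
    have h2 : Φ c (fun i => (⟨e i, he i⟩ : Fin (N + 1))) = 0 := by
      rw [LinearMap.mem_ker] at hc
      rw [hc]
      rfl
    rw [hΦ, h1] at h2
    rw [← h2]
    refine Finset.sum_congr rfl fun α _ => ?_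
    rw [coeff_C_mul, mul_comm]
  · push Not at he
    obtain ⟨i, hi⟩ := he
    refine Finset.sum_eq_zero fun α _ => ?_
    rw [coeff_C_mul]
    have h3 : coeff e (T α) = 0 := by
      by_contra hne
      have h4 : e ∈ (T α).support := mem_support_iff.2 hne
      have h5 := monomial_le_degreeOf i h4
      have h6 := hT α i
      omega
    rw [h3, mul_zero]

theorem dc : S_DC := by
  intro k _ _ ι κ _ _ d D F Q hcard hd hD hF hQ
  classical
  choose p hp hpF using hF
  obtain ⟨pQ, hpQ, hpQQ⟩ := hQ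
  set q := Fintype.card κ with hq
  have hsum : ∀ α : κ → Fin (D + 1), ∑ x, (α x : ℕ) ≤ q * D := by
    intro α
    calc ∑ x, (α x : ℕ) ≤ ∑ _x : κ, D := Finset.sum_le_sum fun x _ => Nat.lt_succ_iff.1 (α x).2
      _ = q * D := by rw [Finset.sum_const, Finset.card_univ, smul_eq_mul]
  obtain ⟨c, hc0, hc⟩ := rel k (d * (q * D))
    (fun α : κ → Fin (D + 1) => (∏ x, p x ^ (α x : ℕ)) * pQ ^ (q * D - ∑ x, (α x : ℕ)))
    (by
      intro α i
      refine (degreeOf_mul_le _ _ _).trans ?_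
      have h1 : degreeOf i (∏ x, p x ^ (α x : ℕ)) ≤ ∑ x, (α x : ℕ) * d := by
        refine (degreeOf_prod_le _ _ _).trans (Finset.sum_le_sum fun x _ => ?_)
        exact (degreeOf_pow_le _ _ _).trans (Nat.mul_le_mul_left _ (hp x i))
      have h2 : degreeOf i (pQ ^ (q * D - ∑ x, (α x : ℕ))) ≤ (q * D - ∑ x, (α x : ℕ)) * d :=
        (degreeOf_pow_le _ _ _).trans (Nat.mul_le_mul_left _ (hpQ i))
      calc _ ≤ ∑ x, (α x : ℕ) * d + (q * D - ∑ x, (α x : ℕ)) * d := add_le_add h1 h2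
        _ = (∑ x, (α x : ℕ) + (q * D - ∑ x, (α x : ℕ))) * d := by
          rw [← Finset.sum_mul, add_mul]
        _ = d * (q * D) := by
          rw [Nat.add_sub_cancel' (hsum α), mul_comm])
    (by
      have h1 : Fintype.card (κ → Fin (D + 1)) = (D + 1) ^ q := by simp [hq]
      rw [h1]
      exact count _ _ _ _ hcard hd hD)
  refine ⟨∑ α : κ → Fin (D + 1), monomial (fs α) (c α), ?_, ?_, ?_⟩
  · intro h0
    apply hc0
    funext α
    have h1 : coeff (fs α) (∑ β : κ → Fin (D + 1), monomial (fs β) (c β)) = c α := by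
      rw [coeff_sum, Finset.sum_eq_single α]
      · rw [coeff_monomial, if_pos rfl]
      · intro β _ hβ
        rw [coeff_monomial, if_neg (fun h => hβ (fs_inj h))]
      · intro h
        exact absurd (Finset.mem_univ _) h
    rw [h0, coeff_zero] at h1
    exact h1.symm
  · intro x
    rw [degreeOf_le_iff]
    intro e he
    have h1 : ∃ α : κ → Fin (D + 1), e = fs α := by
      by_contra hne
      push Not at hne
      rw [mem_support_iff] at he
      apply he
      rw [coeff_sum]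
      refine Finset.sum_eq_zero fun α _ => ?_
      rw [coeff_monomial, if_neg (fun h => hne α h.symm)]
    obtain ⟨α, rfl⟩ := h1
    rw [fs_apply]
    exact Nat.lt_succ_iff.1 (α x).2
  · intro y hy
    have h1 := congrArg (aeval y) hc
    rw [map_sum, map_zero] at h1
    rw [map_sum]
    have h2 : ∀ α : κ → Fin (D + 1),
        aeval (fun x => F x y / Q y) (monomial (fs α) (c α)) = (Q y ^ (q * D))⁻¹ *
          aeval y (C (c α) * ((∏ x, p x ^ (α x : ℕ)) * pQ ^ (q * D - ∑ x, (α x : ℕ)))) := by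
      intro α
      have h3 : (aeval y (C (c α) * ((∏ x, p x ^ (α x : ℕ)) *
          pQ ^ (q * D - ∑ x, (α x : ℕ)))) : ℝ) =
          algebraMap k ℝ (c α) * ((∏ x, F x y ^ (α x : ℕ)) *
            Q y ^ (q * D - ∑ x, (α x : ℕ))) := by
        rw [map_mul, map_mul, map_pow, map_prod, ← hpQQ, aeval_C]
        congr 2
        refine Finset.prod_congr rfl fun x _ => ?_
        rw [map_pow, ← hpF]
      rw [h3, aeval_monomial, Finsupp.prod_fintype _ _ (fun i => pow_zero _)]
      have h4 : ∏ x, (F x y / Q y) ^ (fs α x) =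
          (∏ x, F x y ^ (α x : ℕ)) * (Q y ^ (∑ x, (α x : ℕ)))⁻¹ := by
        rw [← Finset.prod_pow_eq_pow_sum, ← Finset.prod_inv_distrib, ← Finset.prod_mul_distrib]
        refine Finset.prod_congr rfl fun x _ => ?_
        rw [fs_apply, div_pow, div_eq_mul_inv]
      have h5 : (Q y ^ (q * D))⁻¹ * Q y ^ (q * D - ∑ x, (α x : ℕ)) =
          (Q y ^ (∑ x, (α x : ℕ)))⁻¹ := by
        have h6 : Q y ^ (q * D) = Q y ^ (∑ x, (α x : ℕ)) * Q y ^ (q * D - ∑ x, (α x : ℕ)) := by
          rw [← pow_add, Nat.add_sub_cancel' (hsum α)]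
        rw [h6, mul_inv, mul_assoc, inv_mul_cancel₀ (pow_ne_zero _ hy), mul_one]
      rw [h4, ← h5]
      ring
    rw [Finset.sum_congr rfl fun α _ => h2 α, ← Finset.mul_sum, h1, mul_zero]

end Pool.Agent.W19.IP
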